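import Pool.Agent.Y727.PSP.Stm

/-!
# Project PSP, task LOC (helper394): the local factors
-/

set_option autoImplicit false

open Finset

namespace Pool.Agent.Y394.PSP

open Pool.Agent.TH423.SH (PS PIj)
open Pool.Agent.Y727.PSP (rho)

/-- primes larger than `s` dividing `D` -/
theorem card_mul_log_le {s : ℝ} (hs : 1 < s) (D : ℕ) (hD : D ≠ 0) (T : Finset ℕ)
    (hT : ∀ p ∈ T, p.Prime ∧ s < (p : ℝ) ∧ p ∣ D) :
    (T.card : ℝ) * Real.log s ≤ Real.log D := by
  have h1 : (∏ p ∈ T, p) ∣ D := by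
    apply Finset.prod_primes_dvd
    · intro p hp
      exact (hT p hp).1.prime
    · intro p hp
      exact (hT p hp).2.2
  have h2 : ((∏ p ∈ T, p : ℕ) : ℝ) ≤ D := by
    exact_mod_cast Nat.le_of_dvd (Nat.pos_of_ne_zero hD) h1
  have h3 : s ^ T.card ≤ ((∏ p ∈ T, p : ℕ) : ℝ) := by
    rw [Nat.cast_prod, ← Finset.prod_const]
    apply Finset.prod_le_prod
    · intro p _
      linarith
    · intro p hp
      exact (hT p hp).2.1.le
  have h4 : Real.log (s ^ T.card) ≤ Real.log D :=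
    Real.log_le_log (by positivity) (h3.trans h2)
  rwa [Real.log_pow] at h4

theorem sum_inv_le {s : ℝ} (hs : 1 < s) (D : ℕ) (hD : D ≠ 0) (T : Finset ℕ)
    (hT : ∀ p ∈ T, p.Prime ∧ s < (p : ℝ) ∧ p ∣ D) :
    ∑ p ∈ T, (1 : ℝ) / p ≤ Real.log D / (s * Real.log s) := by
  have hl : 0 < Real.log s := Real.log_pos hs
  have hs0 : 0 < s := by linarith
  have h1 : ∑ p ∈ T, (1 : ℝ) / p ≤ ∑ _p ∈ T, (1 : ℝ) / s := by
    apply Finset.sum_le_sum
    intro p hp
    exact one_div_le_one_div_of_le hs0 (hT p hp).2.1.le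
  rw [Finset.sum_const, nsmul_eq_mul] at h1
  refine h1.trans ?_
  rw [le_div_iff₀ (by positivity)]
  have := card_mul_log_le hs D hD T hT
  calc (T.card : ℝ) * (1 / s) * (s * Real.log s) = (T.card : ℝ) * Real.log s := by
        field_simp
    _ ≤ _ := this

theorem sum_inv_sq_le {s : ℝ} (hs : 1 < s) (T : Finset ℕ) (hT : ∀ p ∈ T, s < (p : ℝ)) :
    ∑ p ∈ T, (1 : ℝ) / (p : ℝ) ^ 2 ≤ 2 / s := by
  have h1 : T ⊆ Ioo ⌊s⌋₊ (T.sup id + 1) := by
    intro p hp
    rw [mem_Ioo]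
    constructor
    · rw [Nat.floor_lt (by linarith)]
      exact hT p hp
    · exact Nat.lt_succ_of_le (Finset.le_sup (f := id) hp)
  have h2 : ∑ p ∈ T, (1 : ℝ) / (p : ℝ) ^ 2 ≤
      ∑ p ∈ Ioo ⌊s⌋₊ (T.sup id + 1), (1 : ℝ) / (p : ℝ) ^ 2 := by
    apply Finset.sum_le_sum_of_subset_of_nonneg h1
    intros
    positivity
  have h3 := sum_Ioo_inv_sq_le (α := ℝ) ⌊s⌋₊ (T.sup id + 1)
  have h4 : (2 : ℝ) / ((⌊s⌋₊ : ℝ) + 1) ≤ 2 / s := by
    apply div_le_div_of_nonneg_left (by norm_num) (by linarith)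
    exact (Nat.lt_floor_add_one s).le
  calc _ ≤ _ := h2
    _ = ∑ i ∈ Ioo ⌊s⌋₊ (T.sup id + 1), ((i : ℝ) ^ 2)⁻¹ := by
        simp only [one_div]
    _ ≤ _ := h3
    _ ≤ _ := h4

theorem rho_le {m : ℕ} (W : ℕ) (u : Fin m → ℕ) (p : ℕ) (hp : p.Prime) : rho W u p ≤ m := by
  classical
  have : Fact p.Prime := ⟨hp⟩
  have h1 : (range p).filter (fun r => ∃ i, p ∣ 1 + r * W * u i) ⊆
      (univ : Finset (Fin m)).biUnion
        (fun i => (range p).filter (fun r => p ∣ 1 + r * W * u i)) := by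
    intro r hr
    rw [mem_filter] at hr
    obtain ⟨hr1, i, hi⟩ := hr
    rw [mem_biUnion]
    exact ⟨i, mem_univ _, mem_filter.2 ⟨hr1, hi⟩⟩
  have h2 : ∀ i : Fin m, ((range p).filter (fun r => p ∣ 1 + r * W * u i)).card ≤ 1 := by
    intro i
    rw [Finset.card_le_one]
    intro a ha b hb
    rw [mem_filter, mem_range] at ha hb
    have ha2 := (ZMod.natCast_eq_zero_iff _ _).2 ha.2
    have hb2 := (ZMod.natCast_eq_zero_iff _ _).2 hb.2
    push_cast at ha2 hb2
    have hne : ((W : ZMod p) * (u i : ZMod p)) ≠ 0 := by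
      intro h0
      rw [mul_assoc, h0, mul_zero, add_zero] at ha2
      exact one_ne_zero ha2
    have h3 : (a : ZMod p) = (b : ZMod p) := by
      have : ((a : ZMod p) - b) * ((W : ZMod p) * (u i : ZMod p)) = 0 := by
        linear_combination ha2 - hb2
      rcases mul_eq_zero.1 this with h | h
      · exact sub_eq_zero.1 h
      · exact absurd h hne
    rw [ZMod.natCast_eq_natCast_iff'] at h3
    rwa [Nat.mod_eq_of_lt ha.1, Nat.mod_eq_of_lt hb.1] at h3
  calc rho W u p ≤ _ := Finset.card_le_card h1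
    _ ≤ ∑ i : Fin m, ((range p).filter (fun r => p ∣ 1 + r * W * u i)).card :=
        Finset.card_biUnion_le
    _ ≤ ∑ _i : Fin m, 1 := Finset.sum_le_sum (fun i _ => h2 i)
    _ = m := by simp

theorem rho_eq {m : ℕ} (W : ℕ) (u : Fin m → ℕ) (p : ℕ) (hp : p.Prime) (hW : ¬ p ∣ W)
    (hu : ∀ i, ¬ p ∣ u i) (huu : ∀ i j, i ≠ j → ¬ p ∣ ((u i : ℤ) - (u j : ℤ)).natAbs) :
    rho W u p = m := by
  classical
  have : Fact p.Prime := ⟨hp⟩
  apply le_antisymm (rho_le W u p hp)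
  have hWu : ∀ i, (W : ZMod p) * (u i : ZMod p) ≠ 0 := by
    intro i h
    rcases mul_eq_zero.1 h with h | h
    · exact hW ((ZMod.natCast_eq_zero_iff _ _).1 h)
    · exact hu i ((ZMod.natCast_eq_zero_iff _ _).1 h)
  let g : Fin m → ℕ := fun i => (-((W : ZMod p) * (u i : ZMod p))⁻¹).val
  have hg : ∀ i, ((g i : ℕ) : ZMod p) = -((W : ZMod p) * (u i : ZMod p))⁻¹ := by
    intro i
    exact ZMod.natCast_zmod_val _
  have hinj : Function.Injective g := by
    intro i j hij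
    by_contra hne
    have h1 : (-((W : ZMod p) * (u i : ZMod p))⁻¹) = -((W : ZMod p) * (u j : ZMod p))⁻¹ := by
      rw [← hg i, ← hg j, hij]
    rw [neg_inj, inv_inj] at h1
    have hW0 : (W : ZMod p) ≠ 0 := by
      intro h
      exact hW ((ZMod.natCast_eq_zero_iff _ _).1 h)
    have h2 := mul_left_cancel₀ hW0 h1
    apply huu i j hne
    rw [← Int.natCast_dvd_natCast, Int.dvd_natAbs, ← ZMod.intCast_zmod_eq_zero_iff_dvd]
    push_cast
    rw [h2, sub_self]
  have hmem : ∀ i ∈ (univ : Finset (Fin m)),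
      g i ∈ (range p).filter (fun r => ∃ i, p ∣ 1 + r * W * u i) := by
    intro i _
    rw [mem_filter, mem_range]
    refine ⟨ZMod.val_lt _, i, ?_⟩
    rw [← ZMod.natCast_eq_zero_iff]
    push_cast
    rw [hg i, mul_assoc, neg_mul, inv_mul_cancel₀ (hWu i)]
    ring
  have := Finset.card_le_card_of_injOn g hmem hinj.injOn
  simpa [rho] using this

theorem pow_le_quad (m : ℕ) (x : ℝ) (hx0 : 0 ≤ x) (hx1 : x ≤ 1) :
    (1 - x) ^ m ≤ 1 - m * x + (m : ℝ) ^ 2 * x ^ 2 := by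
  induction m with
  | zero => simp
  | succ n ih =>
    rw [pow_succ]
    have h1 : (1 - x) ^ n * (1 - x) ≤ (1 - n * x + (n : ℝ) ^ 2 * x ^ 2) * (1 - x) :=
      mul_le_mul_of_nonneg_right ih (by linarith)
    refine h1.trans ?_
    push_cast
    have hn : (0 : ℝ) ≤ n := Nat.cast_nonneg n
    have h2 : 0 ≤ (n : ℝ) ^ 2 * x ^ 3 := by positivity
    have h3 : 0 ≤ ((n : ℝ) + 1) * x ^ 2 := by positivity
    nlinarith

theorem log_natAbs_sub_le {s : ℝ} (hs : 0 ≤ s) (a b : ℕ) (ha : 1 ≤ a) (hb : 1 ≤ b)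
    (hla : Real.log a ≤ s) (hlb : Real.log b ≤ s) :
    Real.log ((((a : ℤ) - (b : ℤ)).natAbs : ℕ) : ℝ) ≤ s := by
  rcases Nat.eq_zero_or_pos ((a : ℤ) - (b : ℤ)).natAbs with h0 | h0
  · rw [h0]
    simpa using hs
  have h1 : ((a : ℤ) - (b : ℤ)).natAbs ≤ max a b := by
    rcases le_total a b with h | h <;> omega
  have h2 : Real.log ((((a : ℤ) - (b : ℤ)).natAbs : ℕ) : ℝ) ≤ Real.log ((max a b : ℕ) : ℝ) := by
    apply Real.log_le_log
    · exact_mod_cast h0
    · exact_mod_cast h1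
  refine h2.trans ?_
  rcases le_total a b with h | h
  · rw [max_eq_right h]; exact hlb
  · rw [max_eq_left h]; exact hla

/-- task LOC -/
theorem LOC : Pool.Agent.Y727.PSP.S_LOC := by
  classical
  intro m η hη
  set θ : ℝ := Real.log (1 + η) with hθ
  have hθ0 : 0 < θ := Real.log_pos (by linarith)
  refine ⟨max (Real.exp ((m : ℝ) ^ 2 * (6 + 2 * m) / θ + 1)) (2 * m + 2), ?_⟩
  intro s hs W hW1 hWs u hu hu1 R
  have hs1 : Real.exp ((m : ℝ) ^ 2 * (6 + 2 * m) / θ + 1) ≤ s := (le_max_left _ _).trans hs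
  have hs2 : 2 * (m : ℝ) + 2 ≤ s := (le_max_right _ _).trans hs
  have hm0 : (0 : ℝ) ≤ m := Nat.cast_nonneg m
  have hs1' : 1 < s := by linarith
  have hs0 : 0 < s := by linarith
  have hlog : (m : ℝ) ^ 2 * (6 + 2 * m) / θ + 1 ≤ Real.log s := by
    rw [Real.le_log_iff_exp_le hs0]
    exact hs1
  have hlog0 : 0 < Real.log s := Real.log_pos hs1'
  -- the primes in `PS W R` are larger than `s`
  have hPS : ∀ p ∈ PS W R, p.Prime ∧ ¬ p ∣ W ∧ s < (p : ℝ) := by
    intro p hp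
    unfold PS at hp
    rw [mem_filter] at hp
    refine ⟨hp.2.1, hp.2.2, ?_⟩
    by_contra h
    exact hp.2.2 (hWs p hp.2.1 (not_lt.1 h))
  set a : ℕ → ℝ := fun p => 1 - (rho W u p : ℝ) / p with ha
  set b : ℕ → ℝ := fun p => (1 - ((1 : ℕ) : ℝ) / p) ^ m with hb
  set Δ : ℕ := (∏ i, u i) * ∏ q ∈ (univ : Finset (Fin m)).offDiag,
    ((u q.1 : ℤ) - (u q.2 : ℤ)).natAbs with hΔ
  have hΔ1 : (∏ i, u i) ≠ 0 := by
    rw [Finset.prod_ne_zero_iff]
    intro i _
    have := (hu1 i).1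
    omega
  have hΔ2 : (∏ q ∈ (univ : Finset (Fin m)).offDiag,
      ((u q.1 : ℤ) - (u q.2 : ℤ)).natAbs) ≠ 0 := by
    rw [Finset.prod_ne_zero_iff]
    intro q hq
    rw [mem_offDiag] at hq
    intro h
    apply hq.2.2
    apply hu
    omega
  have hΔ0 : Δ ≠ 0 := Nat.mul_ne_zero hΔ1 hΔ2
  have hlogΔ : Real.log Δ ≤ ((m : ℝ) + (m : ℝ) ^ 2) * s := by
    rw [hΔ, Nat.cast_mul, Real.log_mul (by exact_mod_cast hΔ1) (by exact_mod_cast hΔ2),
      Nat.cast_prod, Nat.cast_prod, Real.log_prod, Real.log_prod]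
    · have h1 : ∑ i : Fin m, Real.log (u i) ≤ m * s := by
        calc ∑ i : Fin m, Real.log (u i) ≤ ∑ _i : Fin m, s :=
              Finset.sum_le_sum (fun i _ => (hu1 i).2)
          _ = m * s := by simp
      have h2 : ∑ q ∈ (univ : Finset (Fin m)).offDiag,
          Real.log ((((u q.1 : ℤ) - (u q.2 : ℤ)).natAbs : ℕ) : ℝ) ≤ (m : ℝ) ^ 2 * s := by
        calc ∑ q ∈ (univ : Finset (Fin m)).offDiag,
              Real.log ((((u q.1 : ℤ) - (u q.2 : ℤ)).natAbs : ℕ) : ℝ)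
            ≤ ∑ _q ∈ (univ : Finset (Fin m)).offDiag, s := by
              apply Finset.sum_le_sum
              intro q _
              exact log_natAbs_sub_le hs0.le _ _ (hu1 _).1 (hu1 _).1 (hu1 _).2 (hu1 _).2
          _ = ((univ : Finset (Fin m)).offDiag.card : ℝ) * s := by
              rw [Finset.sum_const, nsmul_eq_mul]
          _ ≤ (m : ℝ) ^ 2 * s := by
              apply mul_le_mul_of_nonneg_right _ hs0.le
              rw [offDiag_card]
              simp only [card_univ, Fintype.card_fin]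
              have : m * m - m ≤ m ^ 2 := by
                rw [sq]; omega
              exact_mod_cast this
      linarith
    · intro q hq
      have := (Finset.prod_ne_zero_iff.1 hΔ2) q hq
      exact_mod_cast this
    · intro i _
      have := (hu1 i).1
      have h : u i ≠ 0 := by omega
      exact_mod_cast h
  -- bounds for the factors
  have hx : ∀ p ∈ PS W R, 0 < (1 : ℝ) / p ∧ (1 : ℝ) / p ≤ 1 ∧ (m : ℝ) * (1 / p) ≤ 1 / 2 := by
    intro p hp
    have h := (hPS p hp).2.2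
    have hp0 : (0 : ℝ) < p := by linarith
    refine ⟨by positivity, ?_, ?_⟩
    · rw [div_le_one hp0]; linarith
    · rw [mul_one_div, div_le_iff₀ hp0]
      linarith
  have hb1 : ∀ p ∈ PS W R, 1 - (m : ℝ) * (1 / p) ≤ b p := by
    intro p hp
    obtain ⟨h0, h1, h2⟩ := hx p hp
    have := one_add_mul_le_pow (a := -((1 : ℝ) / p)) (by linarith) m
    simp only [hb, Nat.cast_one]
    calc 1 - (m : ℝ) * (1 / p) = 1 + (m : ℝ) * (-((1 : ℝ) / p)) := by ring
      _ ≤ (1 + -((1 : ℝ) / p)) ^ m := this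
      _ = (1 - 1 / (p : ℝ)) ^ m := by ring
  have hb2 : ∀ p ∈ PS W R, 1 / 2 ≤ b p := by
    intro p hp
    have := (hx p hp).2.2
    have := hb1 p hp
    linarith
  have hb3 : ∀ p ∈ PS W R, b p ≤ 1 - (m : ℝ) * (1 / p) + (m : ℝ) ^ 2 * (1 / p) ^ 2 := by
    intro p hp
    obtain ⟨h0, h1, h2⟩ := hx p hp
    have := pow_le_quad m ((1 : ℝ) / p) h0.le h1
    simp only [hb, Nat.cast_one]
    exact this
  have hb4 : ∀ p ∈ PS W R, b p ≤ 1 := by
    intro p hp
    obtain ⟨h0, h1, h2⟩ := hx p hp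
    simp only [hb, Nat.cast_one]
    exact pow_le_one₀ (by linarith) (by linarith)
  have ha1 : ∀ p ∈ PS W R, 1 - (m : ℝ) * (1 / p) ≤ a p ∧ a p ≤ 1 := by
    intro p hp
    obtain ⟨h0, h1, h2⟩ := hx p hp
    have hr : (rho W u p : ℝ) ≤ m := by exact_mod_cast rho_le W u p (hPS p hp).1
    have hr0 : (0 : ℝ) ≤ rho W u p := Nat.cast_nonneg _
    simp only [ha]
    rw [div_eq_mul_one_div ((rho W u p : ℕ) : ℝ)]
    constructor
    · have := mul_le_mul_of_nonneg_right hr h0.le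
      linarith
    · have := mul_nonneg hr0 h0.le
      linarith
  have ha2 : ∀ p ∈ PS W R, ¬ p ∣ Δ → a p = 1 - (m : ℝ) * (1 / p) := by
    intro p hp hd
    obtain ⟨hp1, hp2, hp3⟩ := hPS p hp
    have hr : rho W u p = m := by
      apply rho_eq W u p hp1 hp2
      · intro i hi
        apply hd
        exact Dvd.dvd.mul_right (hi.trans (Finset.dvd_prod_of_mem _ (mem_univ i))) _
      · intro i j hij hi
        apply hd
        apply Dvd.dvd.mul_left
        refine hi.trans ?_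
        exact Finset.dvd_prod_of_mem (fun q : Fin m × Fin m => ((u q.1 : ℤ) - (u q.2 : ℤ)).natAbs)
          (show (i, j) ∈ (univ : Finset (Fin m)).offDiag by
            rw [mem_offDiag]; exact ⟨mem_univ _, mem_univ _, hij⟩)
    simp only [ha, hr]
    ring
  -- the relative error
  set f : ℕ → ℝ := fun p => a p / b p - 1 with hf
  have hbpos : ∀ p ∈ PS W R, 0 < b p := fun p hp => by
    have := hb2 p hp
    linarith
  have hf1 : ∀ p ∈ PS W R, |f p| ≤ 2 * |a p - b p| := by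
    intro p hp
    have h0 := hbpos p hp
    have h1 : f p = (a p - b p) / b p := by
      simp only [hf]
      field_simp
    rw [h1, abs_div, abs_of_pos h0, div_le_iff₀ h0]
    have h2 := hb2 p hp
    have h3 := abs_nonneg (a p - b p)
    nlinarith
  have hf2 : ∀ p ∈ PS W R, |f p| ≤ 2 * (m : ℝ) ^ 2 * (1 / (p : ℝ) ^ 2) +
      (if p ∣ Δ then 2 * (m : ℝ) * (1 / p) else 0) := by
    intro p hp
    obtain ⟨h0, h1, h2⟩ := hx p hp
    have e1 := hb1 p hp
    have e3 := hb3 p hp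
    have e4 := hb4 p hp
    obtain ⟨e5, e6⟩ := ha1 p hp
    refine (hf1 p hp).trans ?_
    have hsq : (1 : ℝ) / (p : ℝ) ^ 2 = (1 / p) ^ 2 := by
      rw [div_pow, one_pow]
    split_ifs with hd
    · have h3 : |a p - b p| ≤ (m : ℝ) * (1 / p) := by
        rw [abs_le]
        constructor <;> linarith
      have h4 : 0 ≤ 2 * (m : ℝ) ^ 2 * (1 / (p : ℝ) ^ 2) := by positivity
      linarith
    · have e7 := ha2 p hp hd
      have h3 : |a p - b p| ≤ (m : ℝ) ^ 2 * (1 / p) ^ 2 := by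
        rw [abs_le]
        constructor
        · linarith
        · have : 0 ≤ (m : ℝ) ^ 2 * ((1 : ℝ) / p) ^ 2 := by positivity
          linarith
      rw [hsq]
      linarith
  have hsum : ∑ p ∈ PS W R, ‖f p‖ ≤ θ := by
    have h1 : ∑ p ∈ PS W R, ‖f p‖ ≤ ∑ p ∈ PS W R, (2 * (m : ℝ) ^ 2 * (1 / (p : ℝ) ^ 2) +
      (if p ∣ Δ then 2 * (m : ℝ) * (1 / p) else 0)) := by
      apply Finset.sum_le_sum
      intro p hp
      rw [Real.norm_eq_abs]
      exact hf2 p hp
    rw [Finset.sum_add_distrib, ← Finset.mul_sum, ← Finset.sum_filter, ← Finset.mul_sum] at h1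
    have h2 : ∑ p ∈ PS W R, (1 : ℝ) / (p : ℝ) ^ 2 ≤ 2 / s :=
      sum_inv_sq_le hs1' _ (fun p hp => (hPS p hp).2.2)
    have h3 : ∑ p ∈ (PS W R).filter (fun p => p ∣ Δ), (1 : ℝ) / p ≤
        Real.log Δ / (s * Real.log s) := by
      apply sum_inv_le hs1' Δ hΔ0
      intro p hp
      rw [mem_filter] at hp
      exact ⟨(hPS p hp.1).1, (hPS p hp.1).2.2, hp.2⟩
    have h4 : Real.log Δ / (s * Real.log s) ≤ ((m : ℝ) + (m : ℝ) ^ 2) / Real.log s := by
      rw [div_le_div_iff₀ (by positivity) hlog0]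
      calc Real.log Δ * Real.log s ≤ (((m : ℝ) + (m : ℝ) ^ 2) * s) * Real.log s :=
            mul_le_mul_of_nonneg_right hlogΔ hlog0.le
        _ = _ := by ring
    have h5 : 2 / s ≤ 2 / Real.log s := by
      apply div_le_div_of_nonneg_left (by norm_num) hlog0
      have := Real.log_le_sub_one_of_pos hs0
      linarith
    have h6 : 2 * (m : ℝ) ^ 2 * (∑ p ∈ PS W R, (1 : ℝ) / (p : ℝ) ^ 2) ≤
        2 * (m : ℝ) ^ 2 * (2 / Real.log s) :=
      mul_le_mul_of_nonneg_left (h2.trans h5) (by positivity)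
    have h7 : 2 * (m : ℝ) * (∑ p ∈ (PS W R).filter (fun p => p ∣ Δ), (1 : ℝ) / p) ≤
        2 * (m : ℝ) * (((m : ℝ) + (m : ℝ) ^ 2) / Real.log s) :=
      mul_le_mul_of_nonneg_left (h3.trans h4) (by positivity)
    have h8 : 2 * (m : ℝ) ^ 2 * (2 / Real.log s) +
        2 * (m : ℝ) * (((m : ℝ) + (m : ℝ) ^ 2) / Real.log s) =
        ((m : ℝ) ^ 2 * (6 + 2 * m)) / Real.log s := by
      field_simp
      ring
    have h9 : ((m : ℝ) ^ 2 * (6 + 2 * m)) / Real.log s ≤ θ := by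
      rw [div_le_iff₀ hlog0, mul_comm θ]
      rw [← div_le_iff₀ hθ0]
      linarith
    linarith
  have hprod1 : ∏ p ∈ PS W R, (1 + f p) = (∏ p ∈ PS W R, a p) / ∏ p ∈ PS W R, b p := by
    rw [← Finset.prod_div_distrib]
    apply Finset.prod_congr rfl
    intro p _
    simp only [hf]
    ring
  have hprodb : ∏ p ∈ PS W R, b p = PIj W R 1 ^ m := by
    unfold PIj
    rw [← Finset.prod_pow]
  have hpos : 0 < PIj W R 1 ^ m := by
    rw [← hprodb]
    exact Finset.prod_pos hbpos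
  have hnorm := Finset.norm_prod_one_add_sub_one_le (PS W R) f
  rw [hprod1, hprodb, Real.norm_eq_abs] at hnorm
  have hexp : Real.exp (∑ p ∈ PS W R, ‖f p‖) - 1 ≤ η := by
    have : Real.exp (∑ p ∈ PS W R, ‖f p‖) ≤ Real.exp θ := Real.exp_le_exp.2 hsum
    rw [hθ, Real.exp_log (by linarith)] at this
    linarith
  have hfin : |∏ p ∈ PS W R, a p - PIj W R 1 ^ m| =
      |(∏ p ∈ PS W R, a p) / PIj W R 1 ^ m - 1| * PIj W R 1 ^ m := by
    rw [← abs_of_pos hpos, ← abs_mul, abs_of_pos hpos, sub_mul, one_mul,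
      div_mul_cancel₀ _ hpos.ne']
  change |∏ p ∈ PS W R, a p - PIj W R 1 ^ m| ≤ η * PIj W R 1 ^ m
  rw [hfin]
  exact mul_le_mul_of_nonneg_right (hnorm.trans hexp) hpos.le

end Pool.Agent.Y394.PSP
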